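import Pool.Agent.Work.MP_bd4052_lc.Interface

/-!
# MP_bd4052_lc, block GEO1: linear functions and the rectangle
-/

set_option autoImplicit false

namespace Pool.Agent.Work.MP_bd4052_lc

namespace GEO

theorem nadd (x y : ℝ) : Num.add x y = x + y := rfl
theorem nneg (x : ℝ) : Num.neg x = -x := rfl
theorem nzero : (Num.zero : ℝ) = 0 := rfl
theorem nlt (x y : ℝ) : Num.lt x y = decide (x < y) := rfl
theorem nsub_eq (x y : ℝ) : nsub x y = x - y := by
  rw [nsub, nadd, nneg, sub_eq_add_neg]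

theorem dot_0 (z : Pt) : dotR 0 z = z.1 := by simp [dotR, ndot]
theorem dot_1 (z : Pt) : dotR 1 z = z.1 + z.2 := by simp [dotR, ndot, nadd]
theorem dot_2 (z : Pt) : dotR 2 z = z.2 := by simp [dotR, ndot]
theorem dot_3 (z : Pt) : dotR 3 z = z.2 - z.1 := by simp [dotR, ndot, nsub_eq]
theorem dot_4 (z : Pt) : dotR 4 z = -z.1 := by simp [dotR, ndot, nneg]
theorem dot_5 (z : Pt) : dotR 5 z = -z.1 - z.2 := by simp [dotR, ndot, nsub_eq, nneg]
theorem dot_6 (z : Pt) : dotR 6 z = -z.2 := by simp [dotR, ndot, nneg]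
theorem dot_7 (z : Pt) : dotR 7 z = z.1 - z.2 := by simp [dotR, ndot, nsub_eq]

theorem dot_ge (i : ℕ) (hi : 7 ≤ i) (z : Pt) : dotR i z = z.1 - z.2 := by
  have h0 : i ≠ 0 := by omega
  have h1 : i ≠ 1 := by omega
  have h2 : i ≠ 2 := by omega
  have h3 : i ≠ 3 := by omega
  have h4 : i ≠ 4 := by omega
  have h5 : i ≠ 5 := by omega
  have h6 : i ≠ 6 := by omega
  simp [dotR, ndot, nsub_eq, h0, h1, h2, h3, h4, h5, h6]

theorem dot_eq (i : ℕ) (z : Pt) : dotR i z = (nvec i).1 * z.1 + (nvec i).2 * z.2 := by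
  have h1 : (nvec i).1 = dotR i (1, 0) := rfl
  have h2 : (nvec i).2 = dotR i (0, 1) := rfl
  rw [h1, h2]
  by_cases hi : 7 ≤ i
  · rw [dot_ge i hi, dot_ge i hi, dot_ge i hi]; simp; ring
  · interval_cases i
    · simp [dot_0]
    · simp [dot_1]
    · simp [dot_2]
    · simp [dot_3]; ring
    · simp [dot_4]
    · simp [dot_5]; ring
    · simp [dot_6]

theorem nvec_ne (i : ℕ) : nvec i ≠ 0 := by
  intro h
  have h1 : dotR i (1, 0) = 0 := congrArg Prod.fst h
  have h2 : dotR i (0, 1) = 0 := congrArg Prod.snd h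
  by_cases hi : 7 ≤ i
  · rw [dot_ge i hi] at h1; norm_num at h1
  · interval_cases i
    · rw [dot_0] at h1; norm_num at h1
    · rw [dot_1] at h1; norm_num at h1
    · rw [dot_2] at h2; norm_num at h2
    · rw [dot_3] at h1; norm_num at h1
    · rw [dot_4] at h1; norm_num at h1
    · rw [dot_5] at h1; norm_num at h1
    · rw [dot_6] at h2; norm_num at h2

theorem dot_opp (i : ℕ) (hi : i < 8) (z : Pt) : dotR ((i + 4) % 8) z = -dotR i z := by
  interval_cases i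
  · rw [dot_0]; exact dot_4 z
  · rw [dot_1]; show dotR 5 z = _; rw [dot_5]; ring
  · rw [dot_2]; exact dot_6 z
  · rw [dot_3]; show dotR 7 z = _; rw [dot_7]; ring
  · rw [dot_4]; show dotR 0 z = _; rw [dot_0]; ring
  · rw [dot_5]; show dotR 1 z = _; rw [dot_1]; ring
  · rw [dot_6]; show dotR 2 z = _; rw [dot_2]; ring
  · rw [dot_7]; show dotR 3 z = _; rw [dot_3]; ring

theorem cneg_lt (e : Con ℝ) : (cneg e).1 < 8 := Nat.mod_lt _ (by norm_num)

theorem cneg_cneg (e : Con ℝ) (he : e.1 < 8) : cneg (cneg e) = e := by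
  apply Prod.ext
  · show ((e.1 + 4) % 8 + 4) % 8 = e.1
    omega
  · show - -e.2 = e.2
    ring

theorem cneg_dot (e : Con ℝ) (he : e.1 < 8) (z : Pt) : dotR (cneg e).1 z = -dotR e.1 z :=
  dot_opp e.1 he z

theorem cneg_snd (e : Con ℝ) : (cneg e).2 = -e.2 := rfl

/-- the point `(1 - t) z + t w` -/
def pt (t : ℝ) (z w : Pt) : Pt := ((1 - t) * z.1 + t * w.1, (1 - t) * z.2 + t * w.2)

theorem dot_pt (i : ℕ) (t : ℝ) (z w : Pt) :
    dotR i (pt t z w) = (1 - t) * dotR i z + t * dotR i w := by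
  rw [dot_eq, dot_eq i z, dot_eq i w, pt]
  ring

theorem continuous_dot (i : ℕ) : Continuous (dotR i) := by
  have : dotR i = fun z : Pt => (nvec i).1 * z.1 + (nvec i).2 * z.2 := funext (dot_eq i)
  rw [this]
  fun_prop

theorem pt_zero (z w : Pt) : pt 0 z w = z := by
  simp [pt]

theorem tendsto_pt (z w : Pt) :
    Filter.Tendsto (fun t => pt t z w) (nhdsWithin 0 (Set.Ioi 0)) (nhds z) := by
  have h : Continuous fun t => pt t z w := by unfold pt; fun_prop
  have h2 := h.tendsto 0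
  rw [pt_zero] at h2
  exact h2.mono_left nhdsWithin_le_nhds

variable {r : Rec ℝ}

theorem pt_RI {t : ℝ} {z w : Pt} (hz : z ∈ RS r) (hw : w ∈ RI r) (h0 : 0 < t) (h1 : t ≤ 1) :
    pt t z w ∈ RI r := by
  obtain ⟨a1, a2, a3, a4⟩ := hz
  obtain ⟨b1, b2, b3, b4⟩ := hw
  have h1' : 0 ≤ 1 - t := by linarith
  refine ⟨?_, ?_, ?_, ?_⟩
  · show r.1.1 < (1 - t) * z.1 + t * w.1
    nlinarith [mul_le_mul_of_nonneg_left a1 h1', mul_lt_mul_of_pos_left b1 h0]
  · show (1 - t) * z.1 + t * w.1 < r.1.2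
    nlinarith [mul_le_mul_of_nonneg_left a2 h1', mul_lt_mul_of_pos_left b2 h0]
  · show r.2.1 < (1 - t) * z.2 + t * w.2
    nlinarith [mul_le_mul_of_nonneg_left a3 h1', mul_lt_mul_of_pos_left b3 h0]
  · show (1 - t) * z.2 + t * w.2 < r.2.2
    nlinarith [mul_le_mul_of_nonneg_left a4 h1', mul_lt_mul_of_pos_left b4 h0]

theorem RI_RS {z : Pt} (hz : z ∈ RI r) : z ∈ RS r :=
  ⟨hz.1.le, hz.2.1.le, hz.2.2.1.le, hz.2.2.2.le⟩

theorem RI_eq : RI r = Set.Ioo r.1.1 r.1.2 ×ˢ Set.Ioo r.2.1 r.2.2 := by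
  ext z
  simp only [RI, Set.mem_ofPred_eq, Set.mem_prod, Set.mem_Ioo, and_assoc]

theorem RS_eq : RS r = Set.Icc r.1.1 r.1.2 ×ˢ Set.Icc r.2.1 r.2.2 := by
  ext z
  simp only [RS, Set.mem_ofPred_eq, Set.mem_prod, Set.mem_Icc, and_assoc]

theorem isOpen_RI : IsOpen (RI r) := by
  rw [RI_eq]; exact isOpen_Ioo.prod isOpen_Ioo

theorem isClosed_RS : IsClosed (RS r) := by
  rw [RS_eq]; exact isClosed_Icc.prod isClosed_Icc

theorem convex_RI : Convex ℝ (RI r) := by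
  rw [RI_eq]; exact (convex_Ioo _ _).prod (convex_Ioo _ _)

theorem convex_RS : Convex ℝ (RS r) := by
  rw [RS_eq]; exact (convex_Icc _ _).prod (convex_Icc _ _)

theorem nonempty_RI (hr : RecOK r) : (RI r).Nonempty :=
  ⟨((r.1.1 + r.1.2) / 2, (r.2.1 + r.2.2) / 2), by
    refine ⟨?_, ?_, ?_, ?_⟩ <;> simp only <;> linarith [hr.1, hr.2]⟩

theorem interior_RS : interior (RS r) = RI r := by
  rw [RS_eq, RI_eq, interior_prod_eq, interior_Icc, interior_Icc]

theorem closure_RI (hr : RecOK r) : closure (RI r) = RS r := by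
  rw [RS_eq, RI_eq, closure_prod_eq, closure_Ioo hr.1.ne, closure_Ioo hr.2.ne]

theorem sol_rectC : sol (rectC r) = RI r := by
  ext z
  simp only [sol, rectC, List.mem_cons, List.not_mem_nil, or_false, Set.mem_ofPred_eq,
    forall_eq_or_imp, forall_eq, RI, nadd, nneg, nsub_eq, dot_0, dot_1, dot_2, dot_3, dot_4, dot_5,
    dot_6, dot_7]
  constructor
  · rintro ⟨h0, -, h2, -, h4, -, h6, -⟩
    refine ⟨?_, ?_, ?_, ?_⟩ <;> linarith
  · rintro ⟨h0, h1, h2, h3⟩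
    refine ⟨?_, ?_, ?_, ?_, ?_, ?_, ?_, ?_⟩ <;> linarith

/-- Near a point of the closed sheet with `e > 0` there are points of the open sheet in the
direction of `w` with `e > 0`. -/
theorem near {e : Con ℝ} {z w : Pt} (hz : z ∈ RS r) (hw : w ∈ RI r) (he : e.2 < dotR e.1 z) :
    ∃ t : ℝ, 0 < t ∧ t ≤ 1 ∧ pt t z w ∈ RI r ∧ e.2 < dotR e.1 (pt t z w) := by
  have h1 : ∀ᶠ y in nhds z, e.2 < dotR e.1 y :=
    ((continuous_dot e.1).tendsto z).eventually (lt_mem_nhds he)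
  have h2 := (tendsto_pt z w).eventually h1
  have h3 : ∀ᶠ t : ℝ in nhdsWithin 0 (Set.Ioi 0), t ∈ Set.Ioo (0 : ℝ) 1 :=
    Ioo_mem_nhdsGT one_pos
  obtain ⟨t, ht1, ht2⟩ := (h2.and h3).exists
  exact ⟨t, ht2.1, ht2.2.le, pt_RI hz hw ht2.1 ht2.2.le, ht1⟩

theorem sub_closed {e f : Con ℝ} (hf : ∃ z ∈ RI r, dotR f.1 z < f.2) (h : SubS r e f) {z : Pt}
    (hz : z ∈ RS r) (he : e.2 < dotR e.1 z) : f.2 < dotR f.1 z := by
  by_contra hc
  push Not at hc
  obtain ⟨w, hw, hfw⟩ := hf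
  obtain ⟨t, h0, h1, h2, h3⟩ := near hz hw he
  have h4 := h _ h2 h3
  rw [dot_pt] at h4
  nlinarith [mul_le_mul_of_nonneg_left hc (by linarith : 0 ≤ 1 - t), mul_lt_mul_of_pos_left hfw h0]

theorem disj_closed {e f : Con ℝ} (hf : ∃ z ∈ RI r, f.2 < dotR f.1 z) (h : DisjS r e f) {z : Pt}
    (hz : z ∈ RS r) (he : e.2 < dotR e.1 z) : dotR f.1 z < f.2 := by
  by_contra hc
  push Not at hc
  obtain ⟨w, hw, hfw⟩ := hf
  obtain ⟨t, h0, h1, h2, h3⟩ := near hz hw he
  have h4 := h _ h2 h3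
  rw [dot_pt] at h4
  apply h4
  nlinarith [mul_le_mul_of_nonneg_left hc (by linarith : 0 ≤ 1 - t), mul_lt_mul_of_pos_left hfw h0]

theorem cap_closure (e : Con ℝ) (he : ProperS r e) :
    {z | z ∈ RS r ∧ e.2 ≤ dotR e.1 z} = closure {z | z ∈ RI r ∧ e.2 < dotR e.1 z} := by
  apply Set.Subset.antisymm
  · rintro z ⟨hz, hez⟩
    obtain ⟨w, hw, hew⟩ := he.1
    refine mem_closure_of_tendsto (tendsto_pt z w) ?_
    filter_upwards [Ioo_mem_nhdsGT (one_pos : (0 : ℝ) < 1)] with t ht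
    refine ⟨pt_RI hz hw ht.1 ht.2.le, ?_⟩
    rw [dot_pt]
    nlinarith [mul_le_mul_of_nonneg_left hez (by linarith [ht.2] : 0 ≤ 1 - t),
      mul_lt_mul_of_pos_left hew ht.1]
  · refine closure_minimal ?_ ?_
    · rintro z ⟨hz, hez⟩
      exact ⟨RI_RS hz, hez.le⟩
    · exact isClosed_RS.inter (isClosed_le continuous_const (continuous_dot e.1))

theorem zero_between {e : Con ℝ} {z w : Pt} (hz : dotR e.1 z < e.2) (hw : e.2 < dotR e.1 w) :
    ∃ t : ℝ, 0 < t ∧ t ≤ 1 ∧ dotR e.1 (pt t z w) = e.2 := by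
  have h1 : 0 < dotR e.1 w - dotR e.1 z := by linarith
  refine ⟨(e.2 - dotR e.1 z) / (dotR e.1 w - dotR e.1 z), div_pos (by linarith) h1, ?_, ?_⟩
  · rw [div_le_one h1]; linarith
  · rw [dot_pt]
    field_simp
    ring

theorem line_meets (e : Con ℝ) (he : ProperS r e) : ∃ z ∈ RI r, dotR e.1 z = e.2 := by
  obtain ⟨⟨w, hw, hw1⟩, z, hz, hz1⟩ := he
  obtain ⟨t, h0, h1, h2⟩ := zero_between hz1 hw1
  exact ⟨_, pt_RI (RI_RS hz) hw h0 h1, h2⟩

/-- the point `z + s v` -/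
theorem dot_add (i : ℕ) (z v : Pt) (s : ℝ) : dotR i (z + s • v) = dotR i z + s * dotR i v := by
  rw [dot_eq, dot_eq i z, dot_eq i v]
  simp only [Prod.fst_add, Prod.snd_add, Prod.smul_fst, Prod.smul_snd, smul_eq_mul]
  ring

theorem add_RI {z : Pt} (hz : z ∈ RI r) (v : Pt) : ∃ s : ℝ, 0 < s ∧ z + s • v ∈ RI r := by
  have h1 : Filter.Tendsto (fun s : ℝ => z + s • v) (nhdsWithin 0 (Set.Ioi 0)) (nhds z) := by
    have h : Continuous fun s : ℝ => z + s • v := by fun_prop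
    have h2 := h.tendsto 0
    rw [zero_smul, add_zero] at h2
    exact h2.mono_left nhdsWithin_le_nhds
  have h2 := h1.eventually (isOpen_RI.mem_nhds hz)
  obtain ⟨s, h3, h4⟩ := (h2.and (self_mem_nhdsWithin (a := (0 : ℝ)) (s := Set.Ioi 0))).exists
  exact ⟨s, h4, h3⟩

theorem add_RI' {z : Pt} (hz : z ∈ RI r) (v : Pt) {e : Con ℝ} (he : e.2 < dotR e.1 z) :
    ∃ s : ℝ, 0 < s ∧ z + s • v ∈ RI r ∧ e.2 < dotR e.1 (z + s • v) := by
  have h1 : Filter.Tendsto (fun s : ℝ => z + s • v) (nhdsWithin 0 (Set.Ioi 0)) (nhds z) := by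
    have h : Continuous fun s : ℝ => z + s • v := by fun_prop
    have h2 := h.tendsto 0
    rw [zero_smul, add_zero] at h2
    exact h2.mono_left nhdsWithin_le_nhds
  have h2 := h1.eventually (isOpen_RI.mem_nhds hz)
  have h3 := h1.eventually (((continuous_dot e.1).tendsto z).eventually (lt_mem_nhds he))
  obtain ⟨s, ⟨h4, h5⟩, h6⟩ :=
    ((h2.and h3).and (self_mem_nhdsWithin (a := (0 : ℝ)) (s := Set.Ioi 0))).exists
  exact ⟨s, h6, h4, h5⟩

theorem dot_nvec_pos (i : ℕ) : 0 < dotR i (nvec i) := by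
  rw [dot_eq]
  have h1 := nvec_ne i
  have h2 : (nvec i).1 ≠ 0 ∨ (nvec i).2 ≠ 0 := by
    by_contra h
    push Not at h
    exact h1 (Prod.ext h.1 h.2)
  rcases h2 with h2 | h2
  · have := mul_self_pos.2 h2
    nlinarith [mul_self_nonneg (nvec i).2]
  · have := mul_self_pos.2 h2
    nlinarith [mul_self_nonneg (nvec i).1]

/-- the direction is determined by the open half-plane -/
theorem dir_unique {i j : ℕ} (hi : i < 8) (hj : j < 8)
    (h : ∀ v : Pt, 0 < dotR i v ↔ 0 < dotR j v) : i = j := by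
  have a1 := h (2, 1)
  have a2 := h (1, 2)
  have a3 := h (-1, 2)
  have a4 := h (-2, 1)
  have a5 := h (-2, -1)
  have a6 := h (-1, -2)
  have a7 := h (1, -2)
  have a8 := h (2, -1)
  interval_cases i <;> interval_cases j
  all_goals
    first
    | rfl
    | exfalso
      revert a1 a2 a3 a4 a5 a6 a7 a8
      norm_num [dot_0, dot_1, dot_2, dot_3, dot_4, dot_5, dot_6, dot_7]

theorem mutual' {e f : Con ℝ} (he8 : e.1 < 8) (hf8 : f.1 < 8) (he : ProperS r e) (hf : ProperS r f)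
    (h1 : SubS r e f) (h2 : SubS r f e) : e = f := by
  obtain ⟨z, hz, hez⟩ := line_meets e he
  -- `f z = 0`
  have hv : 0 < dotR e.1 (nvec e.1) := dot_nvec_pos _
  have hfz1 : f.2 ≤ dotR f.1 z := by
    obtain ⟨w, hw, hew⟩ := he.1
    have h3 : Filter.Tendsto (fun t => dotR f.1 (pt t z w)) (nhdsWithin 0 (Set.Ioi 0))
        (nhds (dotR f.1 z)) := ((continuous_dot f.1).tendsto z).comp (tendsto_pt z w)
    refine ge_of_tendsto h3 ?_
    filter_upwards [Ioo_mem_nhdsGT (one_pos : (0 : ℝ) < 1)] with t ht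
    refine (h1 _ (pt_RI (RI_RS hz) hw ht.1 ht.2.le) ?_).le
    rw [dot_pt, hez]
    nlinarith [mul_lt_mul_of_pos_left hew ht.1]
  have hfz2 : dotR f.1 z ≤ f.2 := by
    by_contra hc
    push Not at hc
    have := h2 z hz hc
    rw [hez] at this
    exact lt_irrefl _ this
  have hfz : dotR f.1 z = f.2 := le_antisymm hfz2 hfz1
  have key : e.1 = f.1 := by
    refine dir_unique he8 hf8 fun v => ?_
    obtain ⟨s, hs, hzs⟩ := add_RI hz v
    constructor
    · intro h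
      have h3 := h1 _ hzs (by rw [dot_add, hez]; nlinarith [mul_pos hs h])
      rw [dot_add, hfz] at h3
      by_contra hc
      push Not at hc
      nlinarith [mul_nonneg hs.le (by linarith : 0 ≤ -dotR f.1 v)]
    · intro h
      have h3 := h2 _ hzs (by rw [dot_add, hfz]; nlinarith [mul_pos hs h])
      rw [dot_add, hez] at h3
      by_contra hc
      push Not at hc
      nlinarith [mul_nonneg hs.le (by linarith : 0 ≤ -dotR e.1 v)]
  exact Prod.ext key (by rw [← hez, ← hfz, key])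

theorem proper_cneg {f : Con ℝ} (hf8 : f.1 < 8) (hf : ProperS r f) : ProperS r (cneg f) := by
  obtain ⟨⟨w, hw, hw1⟩, z, hz, hz1⟩ := hf
  refine ⟨⟨z, hz, ?_⟩, w, hw, ?_⟩
  · rw [cneg_dot f hf8, cneg_snd]; linarith
  · rw [cneg_dot f hf8, cneg_snd]; linarith

theorem compl {e f : Con ℝ} (he8 : e.1 < 8) (hf8 : f.1 < 8) (he : ProperS r e) (hf : ProperS r f)
    (h1 : DisjS r e f)
    (h2 : ∀ z ∈ RI r, e.2 < dotR e.1 z ∨ f.2 < dotR f.1 z ∨ dotR e.1 z = e.2) : e = cneg f := by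
  refine mutual' he8 (cneg_lt f) he (proper_cneg hf8 hf) ?_ ?_
  · intro z hz hez
    rw [cneg_dot f hf8, cneg_snd]
    have := disj_closed hf.1 h1 (RI_RS hz) hez
    linarith
  · intro z hz hfz
    rw [cneg_dot f hf8, cneg_snd] at hfz
    have hfz' : dotR f.1 z < f.2 := by linarith
    rcases h2 z hz with h | h | h
    · exact h
    · linarith
    · exfalso
      -- move in the direction `- nvec e`
      obtain ⟨s, hs, h3, h4⟩ := add_RI' (e := cneg f) hz (-nvec e.1)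
        (by rw [cneg_dot f hf8, cneg_snd]; linarith)
      rw [cneg_dot f hf8, cneg_snd] at h4
      have hv : dotR e.1 (-nvec e.1) = -dotR e.1 (nvec e.1) := by
        rw [dot_eq, dot_eq e.1 (nvec e.1)]
        simp only [Prod.fst_neg, Prod.snd_neg]
        ring
      have h5 := dot_nvec_pos e.1
      rcases h2 _ h3 with h6 | h6 | h6
      · rw [dot_add, h, hv] at h6
        nlinarith [mul_pos hs h5]
      · linarith
      · rw [dot_add, h, hv] at h6
        nlinarith [mul_pos hs h5]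

theorem position {e f : Con ℝ} (h1 : ∀ z ∈ RI r, f.2 < dotR f.1 z → dotR e.1 z ≠ e.2)
    (h2 : ∃ z ∈ RI r, f.2 < dotR f.1 z ∧ e.2 < dotR e.1 z) : SubS r f e := by
  intro z hz hfz
  by_contra hc
  push Not at hc
  have hc' : dotR e.1 z < e.2 := lt_of_le_of_ne hc (h1 z hz hfz)
  obtain ⟨w, hw, hfw, hew⟩ := h2
  obtain ⟨t, h3, h4, h5⟩ := zero_between hc' hew
  refine h1 _ (pt_RI (RI_RS hz) hw h3 h4) ?_ h5
  rw [dot_pt]
  nlinarith [mul_le_mul_of_nonneg_left hfz.le (by linarith : 0 ≤ 1 - t),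
    mul_lt_mul_of_pos_left hfw h3]

end GEO

open GEO in
theorem stmt_GEO1 : Stmt_GEO1 :=
  ⟨dot_eq, fun i hi => ⟨nvec_ne i, dot_opp i hi⟩, fun e he => ⟨cneg_lt e, cneg_cneg e he⟩,
    fun _ hr => ⟨sol_rectC, interior_RS, closure_RI hr, isOpen_RI, nonempty_RI hr, convex_RI,
      convex_RS, fun _ z hz he => by
        obtain ⟨w, hw⟩ := nonempty_RI hr
        obtain ⟨t, -, -, h2, h3⟩ := near hz hw he
        exact ⟨_, h2, h3⟩,
      fun _ _ hf h _ hz he => sub_closed hf.2 h hz he,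
      fun _ _ hf h _ hz he => disj_closed hf.1 h hz he,
      cap_closure, line_meets, fun _ _ => mutual', fun _ _ => compl,
      fun _ _ _ _ => position⟩⟩

end Pool.Agent.Work.MP_bd4052_lc
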