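import Pool.Agent.Work.MP_bd4052_lc_helper52.OCT

/-!
# MP_bd4052_lc, block GEO2: the tests
-/

set_option autoImplicit false

namespace Pool.Agent.Work.MP_bd4052_lc

namespace GEO

theorem rectC_lt {r : Rec ℝ} : ∀ c ∈ rectC r, c.1 < 8 := by
  intro c hc
  simp only [rectC, List.mem_cons, List.not_mem_nil, or_false] at hc
  rcases hc with rfl | rfl | rfl | rfl | rfl | rfl | rfl | rfl <;> norm_num

theorem rectC_all {r : Rec ℝ} : ∀ i < 8, ∃ c ∈ rectC r, c.1 = i := by
  intro i hi
  interval_cases i
  · exact ⟨(0, _), by simp only [rectC, List.mem_cons]; exact Or.inl rfl, rfl⟩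
  · exact ⟨(1, _), by simp only [rectC, List.mem_cons]; exact Or.inr (Or.inl rfl), rfl⟩
  · exact ⟨(2, _), by simp only [rectC, List.mem_cons]; exact Or.inr (Or.inr (Or.inl rfl)), rfl⟩
  · exact ⟨(3, _), by
      simp only [rectC, List.mem_cons]; exact Or.inr (Or.inr (Or.inr (Or.inl rfl))), rfl⟩
  · exact ⟨(4, _), by
      simp only [rectC, List.mem_cons]
      exact Or.inr (Or.inr (Or.inr (Or.inr (Or.inl rfl)))), rfl⟩
  · exact ⟨(5, _), by
      simp only [rectC, List.mem_cons]
      exact Or.inr (Or.inr (Or.inr (Or.inr (Or.inr (Or.inl rfl))))), rfl⟩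
  · exact ⟨(6, _), by
      simp only [rectC, List.mem_cons]
      exact Or.inr (Or.inr (Or.inr (Or.inr (Or.inr (Or.inr (Or.inl rfl)))))), rfl⟩
  · exact ⟨(7, _), by
      simp only [rectC, List.mem_cons]
      exact Or.inr (Or.inr (Or.inr (Or.inr (Or.inr (Or.inr (Or.inr (Or.inl rfl))))))), rfl⟩

/-- `ctest` for constraints in addition to the constraints of the rectangle -/
theorem ctest_rect {r : Rec ℝ} (L : List (Con ℝ)) (hL : ∀ c ∈ L, c.1 < 8) :
    ctest (L ++ rectC r) = true ↔ ∃ z ∈ RI r, ∀ c ∈ L, dotR c.1 z < c.2 := by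
  rw [stmt_OCT (L ++ rectC r)]
  · rw [← sol_rectC]
    constructor
    · rintro ⟨z, hz⟩
      exact ⟨z, fun c hc => hz c (List.mem_append_right _ hc),
        fun c hc => hz c (List.mem_append_left _ hc)⟩
    · rintro ⟨z, hz, hz'⟩
      refine ⟨z, fun c hc => ?_⟩
      rcases List.mem_append.1 hc with h | h
      · exact hz' c h
      · exact hz c h
  · intro c hc
    rcases List.mem_append.1 hc with h | h
    · exact hL c h
    · exact rectC_lt c h
  · intro i hi
    obtain ⟨c, hc, hc'⟩ := rectC_all (r := r) i hi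
    exact ⟨c, List.mem_append_right _ hc, hc'⟩

theorem cneg_con {e : Con ℝ} (he : e.1 < 8) (z : Pt) : dotR (cneg e).1 z < (cneg e).2 ↔
    e.2 < dotR e.1 z := by
  rw [cneg_dot e he, cneg_snd, neg_lt_neg_iff]

theorem dot_neg_nvec (i : ℕ) : dotR i (-nvec i) < 0 := by
  have hv : dotR i (-nvec i) = -dotR i (nvec i) := by
    rw [dot_eq, dot_eq i (nvec i)]
    simp only [Prod.fst_neg, Prod.snd_neg]
    ring
  rw [hv]
  exact neg_lt_zero.2 (dot_nvec_pos i)

end GEO

open GEO in
theorem stmt_GEO2 : Stmt_GEO2 := by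
  intro r _
  refine ⟨fun e he => ?_, fun e f he hf => ?_, fun e f he hf => ?_, fun x y => ?_, fun e f => ?_⟩
  · unfold cproper
    rw [Bool.and_eq_true]
    have h1 := ctest_rect (r := r) [cneg e] (by simpa using cneg_lt e)
    have h2 := ctest_rect (r := r) [e] (by simpa using he)
    simp only [List.singleton_append, List.mem_singleton, forall_eq, cneg_con he] at h1 h2
    rw [h1, h2]
    rfl
  · unfold csub
    have h1 := ctest_rect (r := r) [cneg e, f] (by
      intro c hc
      simp only [List.mem_cons, List.not_mem_nil, or_false] at hc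
      rcases hc with rfl | rfl
      · exact cneg_lt e
      · exact hf)
    simp only [List.cons_append, List.nil_append, List.mem_cons, List.not_mem_nil, or_false,
      forall_eq_or_imp, forall_eq, cneg_con he] at h1
    rw [Bool.not_eq_true', ← Bool.not_eq_true, h1]
    constructor
    · intro h z hz hez
      by_contra hc
      push Not at hc
      obtain ⟨s, hs, h3, h4⟩ := add_RI' hz (-nvec f.1) hez
      refine h ⟨_, h3, h4, ?_⟩
      rw [dot_add]
      nlinarith [mul_pos hs (neg_pos.2 (dot_neg_nvec f.1))]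
    · rintro h ⟨z, hz, h3, h4⟩
      exact lt_asymm h4 (h z hz h3)
  · unfold cdisj
    have h1 := ctest_rect (r := r) [cneg e, cneg f] (by
      intro c hc
      simp only [List.mem_cons, List.not_mem_nil, or_false] at hc
      rcases hc with rfl | rfl
      · exact cneg_lt e
      · exact cneg_lt f)
    simp only [List.cons_append, List.nil_append, List.mem_cons, List.not_mem_nil, or_false,
      forall_eq_or_imp, forall_eq, cneg_con he, cneg_con hf] at h1
    rw [Bool.not_eq_true', ← Bool.not_eq_true, h1]
    constructor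
    · intro h z hz h3 h4
      exact h ⟨z, hz, h3, h4⟩
    · rintro h ⟨z, hz, h3, h4⟩
      exact h z hz h3 h4
  · unfold neqb
    rw [nlt, nlt]
    constructor
    · intro h
      simp only [Bool.and_eq_true, Bool.not_eq_true', decide_eq_false_iff_not, not_lt] at h
      exact le_antisymm h.2 h.1
    · rintro rfl
      simp
  · unfold leq neqb
    rw [nlt, nlt]
    constructor
    · intro h
      simp only [Bool.and_eq_true, Bool.not_eq_true', decide_eq_false_iff_not, not_lt,
        decide_eq_true_eq] at h
      exact Prod.ext h.1 (le_antisymm h.2.2 h.2.1)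
    · rintro rfl
      simp

end Pool.Agent.Work.MP_bd4052_lc
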