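import Pool.Agent.Work.MP_bd4052_lc_helper52.GEO1

/-!
# MP_bd4052_lc, block OCT: solvability of systems with the eight directions
-/

set_option autoImplicit false

namespace Pool.Agent.Work.MP_bd4052_lc

namespace GEO

theorem exists_between4 {l1 l2 l3 l4 u1 u2 u3 u4 : ℝ} (h11 : l1 < u1) (h12 : l1 < u2)
    (h13 : l1 < u3) (h14 : l1 < u4) (h21 : l2 < u1) (h22 : l2 < u2) (h23 : l2 < u3) (h24 : l2 < u4)
    (h31 : l3 < u1) (h32 : l3 < u2) (h33 : l3 < u3) (h34 : l3 < u4) (h41 : l4 < u1) (h42 : l4 < u2)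
    (h43 : l4 < u3) (h44 : l4 < u4) :
    ∃ y, l1 < y ∧ l2 < y ∧ l3 < y ∧ l4 < y ∧ y < u1 ∧ y < u2 ∧ y < u3 ∧ y < u4 := by
  have h : max (max l1 l2) (max l3 l4) < min (min u1 u2) (min u3 u4) := by
    simp only [max_lt_iff, lt_min_iff]
    tauto
  obtain ⟨y, h1, h2⟩ := exists_between h
  simp only [max_lt_iff] at h1
  simp only [lt_min_iff] at h2
  exact ⟨y, h1.1.1, h1.1.2, h1.2.1, h1.2.2, h2.1.1, h2.1.2, h2.2.1, h2.2.2⟩

theorem exists_point {b0 b1 b2 b3 b4 b5 b6 b7 : ℝ} (p0 : 0 < b0 + b4) (p1 : 0 < b1 + b5)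
    (p2 : 0 < b2 + b6) (p3 : 0 < b3 + b7) (t0 : 0 < b0 + b6 + b3) (t1 : 0 < b1 + b7 + 2 * b4)
    (t2 : 0 < b2 + b0 + b5) (t3 : 0 < b3 + b1 + 2 * b6) (t4 : 0 < b4 + b2 + b7)
    (t5 : 0 < b5 + b3 + 2 * b0) (t6 : 0 < b6 + b4 + b1) (t7 : 0 < b7 + b5 + 2 * b2) :
    ∃ x y : ℝ, x < b0 ∧ x + y < b1 ∧ y < b2 ∧ y - x < b3 ∧ -x < b4 ∧ -x - y < b5 ∧ -y < b6 ∧
      x - y < b7 := by
  obtain ⟨y, y1, y2, y3, y4, y5, y6, y7, y8⟩ := exists_between4
    (l1 := -b6) (l2 := -b4 - b7) (l3 := -b5 - b0) (l4 := -(b5 + b7) / 2)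
    (u1 := b2) (u2 := b1 + b4) (u3 := b0 + b3) (u4 := (b1 + b3) / 2)
    (by linarith) (by linarith) (by linarith) (by linarith) (by linarith) (by linarith)
    (by linarith) (by linarith) (by linarith) (by linarith) (by linarith) (by linarith)
    (by linarith) (by linarith) (by linarith) (by linarith)
  obtain ⟨x, x1, x2, x3, -, x5, x6, x7, -⟩ := exists_between4
    (l1 := -b4) (l2 := -b5 - y) (l3 := y - b3) (l4 := -b4)
    (u1 := b0) (u2 := b1 - y) (u3 := b7 + y) (u4 := b0)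
    (by linarith) (by linarith) (by linarith) (by linarith) (by linarith) (by linarith)
    (by linarith) (by linarith) (by linarith) (by linarith) (by linarith) (by linarith)
    (by linarith) (by linarith) (by linarith) (by linarith)
  exact ⟨x, y, x5, by linarith, y5, by linarith, by linarith, by linarith, by linarith,
    by linarith⟩

theorem dot_opp_sum {i : ℕ} (hi : i < 8) (z : Pt) : dotR i z + dotR ((i + 4) % 8) z = 0 := by
  rw [dot_opp i hi]; ring

theorem dot_triple {i : ℕ} (hi : i < 8) (z : Pt) : dotR i z + dotR ((i + 6) % 8) z +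
    (if i % 2 = 0 then dotR ((i + 3) % 8) z else dotR ((i + 3) % 8) z + dotR ((i + 3) % 8) z) = 0 := by
  interval_cases i
  · show dotR 0 z + dotR 6 z + (dotR 3 z) = 0
    rw [dot_0, dot_6, dot_3]; ring
  · show dotR 1 z + dotR 7 z + (dotR 4 z + dotR 4 z) = 0
    rw [dot_1, dot_7, dot_4]; ring
  · show dotR 2 z + dotR 0 z + (dotR 5 z) = 0
    rw [dot_2, dot_0, dot_5]; ring
  · show dotR 3 z + dotR 1 z + (dotR 6 z + dotR 6 z) = 0
    rw [dot_3, dot_1, dot_6]; ring
  · show dotR 4 z + dotR 2 z + (dotR 7 z) = 0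
    rw [dot_4, dot_2, dot_7]; ring
  · show dotR 5 z + dotR 3 z + (dotR 0 z + dotR 0 z) = 0
    rw [dot_5, dot_3, dot_0]; ring
  · show dotR 6 z + dotR 4 z + (dotR 1 z) = 0
    rw [dot_6, dot_4, dot_1]; ring
  · show dotR 7 z + dotR 5 z + (dotR 2 z + dotR 2 z) = 0
    rw [dot_7, dot_5, dot_2]; ring

theorem ctest_iff (L : List (Con ℝ)) : ctest L = true ↔
    (∀ a ∈ L, ∀ b ∈ L, b.1 = (a.1 + 4) % 8 → 0 < a.2 + b.2) ∧
    (∀ a ∈ L, ∀ b ∈ L, ∀ c ∈ L, b.1 = (a.1 + 3) % 8 → c.1 = (a.1 + 6) % 8 →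
      0 < a.2 + c.2 + (if a.1 % 2 = 0 then b.2 else b.2 + b.2)) := by
  unfold ctest
  rw [Bool.and_eq_true]
  refine and_congr ?_ ?_
  · rw [List.all_eq_true]
    refine forall₂_congr fun a _ => ?_
    rw [List.all_eq_true]
    refine forall₂_congr fun b _ => ?_
    rw [nlt, nadd, nzero]
    by_cases h : b.1 = (a.1 + 4) % 8
    · simp [h]
    · simp [h]
  · rw [List.all_eq_true]
    refine forall₂_congr fun a _ => ?_
    rw [List.all_eq_true]
    refine forall₂_congr fun b _ => ?_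
    rw [List.all_eq_true]
    refine forall₂_congr fun c _ => ?_
    rw [nlt, nadd, nadd, nadd, nzero]
    by_cases h : b.1 = (a.1 + 3) % 8
    · by_cases h' : c.1 = (a.1 + 6) % 8
      · by_cases h'' : a.1 % 2 = 0
        · simp [h, h', h'']
        · simp [h, h', h'']
      · simp [h']
    · simp [h]

end GEO

open GEO in
theorem stmt_OCT : Stmt_OCT := by
  intro L hL hall
  rw [ctest_iff]
  constructor
  · rintro ⟨h2, h3⟩
    -- minimal constraints
    have hmin : ∀ i : ℕ, ∃ b : ℝ, i < 8 → (i, b) ∈ L ∧ ∀ c ∈ L, c.1 = i → b ≤ c.2 := by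
      intro i
      by_cases hi : i < 8
      · have hfin : {c : Con ℝ | c ∈ L ∧ c.1 = i}.Finite :=
          (List.finite_toSet L).subset fun c hc => hc.1
        obtain ⟨c, hc, hc1⟩ := hall i hi
        obtain ⟨d, hd, hd2⟩ := Set.exists_min_image _ (fun c : Con ℝ => c.2) hfin ⟨c, hc, hc1⟩
        refine ⟨d.2, fun _ => ⟨?_, fun c hc hc1 => hd2 c ⟨hc, hc1⟩⟩⟩
        have : (i, d.2) = d := Prod.ext hd.2.symm rfl
        rw [this]
        exact hd.1
      · exact ⟨0, fun h => absurd h hi⟩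
    choose b hb using hmin
    have P : ∀ i j : ℕ, i < 8 → j < 8 → j = (i + 4) % 8 → 0 < b i + b j := fun i j hi hj hij =>
      h2 _ (hb i hi).1 _ (hb j hj).1 hij
    have T : ∀ i j k : ℕ, i < 8 → j < 8 → k < 8 → j = (i + 3) % 8 → k = (i + 6) % 8 →
        0 < b i + b k + (if i % 2 = 0 then b j else b j + b j) := fun i j k hi hj hk hij hik =>
      h3 _ (hb i hi).1 _ (hb j hj).1 _ (hb k hk).1 hij hik
    have t0 := T 0 3 6 (by norm_num) (by norm_num) (by norm_num) (by norm_num) (by norm_num)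
    have t1 := T 1 4 7 (by norm_num) (by norm_num) (by norm_num) (by norm_num) (by norm_num)
    have t2 := T 2 5 0 (by norm_num) (by norm_num) (by norm_num) (by norm_num) (by norm_num)
    have t3 := T 3 6 1 (by norm_num) (by norm_num) (by norm_num) (by norm_num) (by norm_num)
    have t4 := T 4 7 2 (by norm_num) (by norm_num) (by norm_num) (by norm_num) (by norm_num)
    have t5 := T 5 0 3 (by norm_num) (by norm_num) (by norm_num) (by norm_num) (by norm_num)
    have t6 := T 6 1 4 (by norm_num) (by norm_num) (by norm_num) (by norm_num) (by norm_num)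
    have t7 := T 7 2 5 (by norm_num) (by norm_num) (by norm_num) (by norm_num) (by norm_num)
    norm_num at t0 t1 t2 t3 t4 t5 t6 t7
    obtain ⟨x, y, e0, e1, e2, e3, e4, e5, e6, e7⟩ := exists_point
      (P 0 4 (by norm_num) (by norm_num) (by norm_num))
      (P 1 5 (by norm_num) (by norm_num) (by norm_num))
      (P 2 6 (by norm_num) (by norm_num) (by norm_num))
      (P 3 7 (by norm_num) (by norm_num) (by norm_num))
      t0 (by linarith) t2 (by linarith) t4 (by linarith) t6 (by linarith)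
    refine ⟨(x, y), fun c hc => ?_⟩
    have hc8 := hL c hc
    refine lt_of_lt_of_le ?_ ((hb c.1 hc8).2 c hc rfl)
    generalize c.1 = i at hc8
    interval_cases i
    · rw [dot_0]; exact e0
    · rw [dot_1]; exact e1
    · rw [dot_2]; exact e2
    · rw [dot_3]; exact e3
    · rw [dot_4]; exact e4
    · rw [dot_5]; exact e5
    · rw [dot_6]; exact e6
    · rw [dot_7]; exact e7
  · rintro ⟨z, hz⟩
    refine ⟨fun a ha b hb hab => ?_, fun a ha b hb c hc hab hac => ?_⟩
    · have h1 := hz a ha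
      have h2 := hz b hb
      have h3 := dot_opp_sum (hL a ha) z
      rw [← hab] at h3
      linarith
    · have h1 := hz a ha
      have h2 := hz b hb
      have h3 := hz c hc
      have h4 := dot_triple (hL a ha) z
      rw [← hab, ← hac] at h4
      split_ifs at h4 ⊢ <;> linarith

end Pool.Agent.Work.MP_bd4052_lc
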