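import Pool.Agent.Work.MP_bd4052_lc.Interface
import Pool.Agent.Work.MP_a23c49_lc.Bits

/-!
# MP_bd4052_lc, block PARSE: from the encoding of a map to numbers with a common denominator
-/

set_option autoImplicit false

namespace Pool.Agent.Work.MP_bd4052_lc

open TMLib MP_013ca9_lc_F Turing Polynomial
open Pool.Agent.Work.MP_a23c49_lc (bv bv_bits mulB bv_mulB PolyF.mulL)

namespace PA

set_option linter.unusedSimpArgs false

variable {α β γ δ : Type} [DE α] [DE β] [DE γ] [DE δ]

@[fun_prop]
theorem PolyF.finVal {N : ℕ} {f : α → Fin N} (hf : PolyF f) : PolyF (fun a => (f a).val) :=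
  PolyF.comp (f := fun i : Fin N => i.val) (PolyF.of_G (PolyG.refl _) fun _ => rfl) hf

theorem bv_lt (l : List Bool) : bv l < 2 ^ l.length := by
  induction l with
  | nil => simp [bv]
  | cons b l ih =>
    simp only [bv, List.length_cons, pow_succ]
    cases b <;> simp <;> omega

theorem size_bv_le (l : List Bool) : (bv l).size ≤ l.length := Nat.size_le.2 (bv_lt l)

/-- `BN` of a bit string. -/
@[fun_prop]
theorem PolyF.ofBv {f : α → List Bool} (hf : PolyF f) : PolyF (fun a => BN.mk (bv (f a))) := by
  have key : ∀ l : List Bool, l.reverse.foldl (fun (s : BN) b =>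
      BN.mk ((BN.mk (s.val + s.val)).val + (bif b then BN.mk 1 else BN.mk 0).val)) (BN.mk 0) =
      BN.mk (bv l) := by
    intro l
    induction l with
    | nil => rfl
    | cons b l ih =>
      rw [List.reverse_cons, List.foldl_append, ih]
      simp only [List.foldl_cons, List.foldl_nil, bv]
      cases b <;> simp <;> ring
  have h : PolyF (fun l : List Bool => l.reverse.foldl (fun (s : BN) b =>
      BN.mk ((BN.mk (s.val + s.val)).val + (bif b then BN.mk 1 else BN.mk 0).val)) (BN.mk 0)) := by
    refine PolyF.foldl (l := fun l : List Bool => l.reverse) (g := fun _ => BN.mk 0)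
      (h := fun _ (s : BN) b =>
        BN.mk ((BN.mk (s.val + s.val)).val + (bif b then BN.mk 1 else BN.mk 0).val))
      (by fun_prop) (by fun_prop) (by fun_prop) (4 * X + 1) ?_
    intro l j hj
    have h1 : l.reverse.take j = (l.drop (l.length - j)).reverse := by
      rw [List.take_reverse]
    rw [h1, key]
    refine (sz_BN_le _).trans ?_
    have h2 := size_bv_le (l.drop (l.length - j))
    have h3 : (l.drop (l.length - j)).length ≤ l.length := by simp
    have h4 := length_lt_sz l
    simp only [eval_add, eval_mul, eval_ofNat, eval_X, eval_one]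
    omega
  exact PolyF.comp (f := fun l : List Bool => BN.mk (bv l)) (h.congrF key) hf

/-- Multiplication of binary numbers. -/
@[fun_prop]
theorem PolyF.mulBB {f g : α → BN} (hf : PolyF f) (hg : PolyF g) :
    PolyF (fun a => BN.mk ((f a).val * (g a).val)) := by
  have h : PolyF (fun a => BN.mk (bv (mulB (f a).val.bits (g a).val.bits))) := by fun_prop
  exact h.congrF fun a => by rw [bv_mulB, bv_bits, bv_bits]

theorem sz_BN_list_ge (l : List BN) : (l.map fun x => x.val.size).sum ≤ sz l := by
  induction l with
  | nil => simp
  | cons a l ih =>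
    have := size_le_sz a.val
    simp only [List.map_cons, List.sum_cons, sz_cons]
    have h : sz a = sz (BN.mk a.val) := rfl
    omega

theorem size_prodBB_le (l : List BN) : ((l.map BN.val).prod).size ≤ (l.map fun x => x.val.size).sum + 1 := by
  induction l with
  | nil => simp
  | cons a l ih =>
    have := size_mul_le a.val (l.map BN.val).prod
    simp only [List.map_cons, List.prod_cons, List.sum_cons]
    omega

/-- The product of a list of binary numbers. -/
@[fun_prop]
theorem PolyF.prodBB {f : α → List BN} (hf : PolyF f) :
    PolyF (fun a => BN.mk ((f a).map BN.val).prod) := by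
  obtain ⟨qf, hqf⟩ := hf.size
  have key : ∀ (l : List BN) (m : ℕ), l.foldl (fun (s : BN) b => BN.mk (s.val * b.val)) (BN.mk m) =
      BN.mk (m * (l.map BN.val).prod) := by
    intro l
    induction l with
    | nil => simp
    | cons b l ih => intro m; simp [ih, mul_assoc]
  refine (PolyF.foldl (l := f) (g := fun _ => BN.mk 1)
    (h := fun _ s b => BN.mk (s.val * b.val)) hf (by fun_prop) (by fun_prop)
    (4 * (qf + 1) + 1) ?_).congrF fun a => ?_
  · intro a j hj
    rw [key, one_mul]
    refine (sz_BN_le _).trans ?_
    have h1 := size_prodBB_le ((f a).take j)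
    have h2 : (((f a).take j).map fun x => x.val.size).sum ≤ ((f a).map fun x => x.val.size).sum := by
      conv_rhs => rw [← List.take_append_drop j (f a), List.map_append, List.sum_append]
      omega
    have h3 := sz_BN_list_ge (f a)
    have h4 := hqf a
    simp only [eval_add, eval_mul, eval_ofNat, eval_one]
    omega
  · rw [key, one_mul]

/-- take -/
@[fun_prop]
theorem PolyF.take {n : α → ℕ} {l : α → List β} (hn : PolyF n) (hl : PolyF l) :
    PolyF (fun a => (l a).take (n a)) := by
  have h : PolyF (fun a => (((l a).reverse).drop ((l a).length - n a)).reverse) := by fun_prop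
  refine h.congrF fun a => ?_
  rw [List.drop_reverse, List.reverse_reverse]
  by_cases hh : n a ≤ (l a).length
  · rw [Nat.sub_sub_self hh]
  · rw [List.take_of_length_le (by omega), List.take_of_length_le (by omega)]

/-! ### the parser -/

/-- a block: the bits between two separators -/
abbrev Blk : Type := List Bool

/-- state of the parser: bits of the current block, blocks of the current group, groups -/
abbrev PS : Type := Blk × List Blk × List (List Blk)

/-- one step of the parser -/
def step (s : PS) (c : Fin 3) : PS :=
  bif decide (c.val = 0) then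
    (bif decide (s.2.1.length = 7) then ([], [], s.2.2 ++ [s.2.1 ++ [s.1]])
      else ([], s.2.1 ++ [s.1], s.2.2))
  else (s.1 ++ [decide (c.val = 2)], s.2.1, s.2.2)

theorem PolyF.step : PolyF (fun p : PS × Fin 3 => step p.1 p.2) := by
  unfold PA.step
  fun_prop

/-- the groups -/
def groups (w : List (Fin 3)) : List (List Blk) := (w.foldl step ([], [], [])).2.2

@[fun_prop]
theorem PolyF.groups {f : α → List (Fin 3)} (hf : PolyF f) :
    PolyF (fun a => PA.groups (f a)) := by
  refine PolyF.comp (f := fun w : List (Fin 3) => PA.groups w) ?_ hf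
  unfold PA.groups
  have h : PolyF (fun w : List (Fin 3) => w.foldl PA.step (([], [], []) : PS)) := by
    refine PolyF.foldl_add (l := fun w : List (Fin 3) => w) (g := fun _ => (([], [], []) : PS))
      (h := fun _ s c => PA.step s c) (by fun_prop) (by fun_prop)
      (PolyF.comp (f := fun p : PS × Fin 3 => PA.step p.1 p.2)
        (g := fun p : List (Fin 3) × PS × Fin 3 => (p.2.1, p.2.2)) PolyF.step (by fun_prop)) 12 ?_
    rintro w ⟨cur, acc, out⟩ c _
    have e1 := sz_append out [acc ++ [cur]]
    have e2 := sz_append acc [cur]
    have e3 := sz_append cur [decide (c.val = 2)]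
    have e4 := sz_bool_le (decide (c.val = 2))
    have e5 := sz_pos cur
    have e6 := sz_pos acc
    have e7 := sz_pos out
    simp only [sz_cons, sz_nil] at e1 e2 e3
    unfold PA.step
    simp only [eval_ofNat]
    by_cases h0 : c.val = 0
    · rw [decide_eq_true h0]
      by_cases h7 : acc.length = 7
      · rw [decide_eq_true h7]
        simp only [cond_true, sz_pair, sz_nil]
        omega
      · rw [decide_eq_false h7]
        simp only [cond_true, cond_false, sz_pair, sz_nil]
        omega
    · rw [decide_eq_false h0]
      simp only [cond_false, sz_pair]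
      omega
  fun_prop

/-- the identification of the alphabets -/
def tok : Option Bool → Fin 3
  | none => 0
  | some false => 1
  | some true => 2

theorem step_bits (l : List Bool) : ∀ (cur : Blk) (acc : List Blk) (out : List (List Blk)),
    ((l.map some).map tok).foldl step (cur, acc, out) = (cur ++ l, acc, out) := by
  induction l with
  | nil => intro cur acc out; simp
  | cons b l ih =>
    intro cur acc out
    have h : step (cur, acc, out) (tok (some b)) = (cur ++ [b], acc, out) := by
      cases b <;> rfl
    simp only [List.map_cons, List.foldl_cons] at ih ⊢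
    rw [h, ih, List.append_assoc]
    rfl

/-- reading a number which is not the last one of the group -/
theorem step_nat (n : ℕ) (cur : Blk) (acc : List Blk) (out : List (List Blk))
    (h : acc.length ≠ 7) :
    ((encNat n).map tok).foldl step (cur, acc, out) = ([], acc ++ [cur ++ n.bits], out) := by
  unfold encNat
  rw [List.map_append, List.foldl_append, step_bits]
  simp [step, tok, h]

/-- reading the last number of the group -/
theorem step_nat7 (n : ℕ) (cur : Blk) (acc : List Blk) (out : List (List Blk))
    (h : acc.length = 7) :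
    ((encNat n).map tok).foldl step (cur, acc, out) = ([], [], out ++ [acc ++ [cur ++ n.bits]]) := by
  unfold encNat
  rw [List.map_append, List.foldl_append, step_bits]
  simp [step, tok, h]

/-- the block of the numerator -/
def sb (x : ℚ) : Blk := decide (x < 0) :: x.num.natAbs.bits

/-- the block of the denominator -/
def db (x : ℚ) : Blk := x.den.bits

theorem step_some (b : Bool) (cur : Blk) (acc : List Blk) (out : List (List Blk)) :
    step (cur, acc, out) (tok (some b)) = (cur ++ [b], acc, out) := by
  cases b <;> rfl

theorem step_rat (x : ℚ) (cur : Blk) (acc : List Blk) (out : List (List Blk))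
    (h : acc.length < 6) :
    ((encRat x).map tok).foldl step (cur, acc, out) = ([], acc ++ [cur ++ sb x, db x], out) := by
  unfold encRat
  rw [List.map_cons, List.foldl_cons, step_some, List.map_append, List.foldl_append,
    step_nat x.num.natAbs (cur ++ [decide (x < 0)]) acc out (by omega),
    step_nat x.den [] (acc ++ [cur ++ [decide (x < 0)] ++ x.num.natAbs.bits]) out
      (by rw [List.length_append, List.length_singleton]; omega)]
  simp [sb, db]

theorem step_rat6 (x : ℚ) (cur : Blk) (acc : List Blk) (out : List (List Blk))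
    (h : acc.length = 6) :
    ((encRat x).map tok).foldl step (cur, acc, out) =
      ([], [], out ++ [acc ++ [cur ++ sb x, db x]]) := by
  unfold encRat
  rw [List.map_cons, List.foldl_cons, step_some, List.map_append, List.foldl_append,
    step_nat x.num.natAbs (cur ++ [decide (x < 0)]) acc out (by omega),
    step_nat7 x.den [] (acc ++ [cur ++ [decide (x < 0)] ++ x.num.natAbs.bits]) out
      (by rw [List.length_append, List.length_singleton]; omega)]
  simp [sb, db]

/-- the group of four rationals, after a prefix -/
def grp (cur : Blk) (x y z t : ℚ) : List Blk :=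
  [cur ++ sb x, db x, sb y, db y, sb z, db z, sb t, db t]

theorem step_four (cur : Blk) (x y z t : ℚ) (out : List (List Blk)) :
    ((encRat x ++ encRat y ++ encRat z ++ encRat t).map tok).foldl step (cur, [], out) =
      ([], [], out ++ [grp cur x y z t]) := by
  rw [List.map_append, List.map_append, List.map_append, List.foldl_append, List.foldl_append,
    List.foldl_append, step_rat x cur [] out (by simp),
    step_rat y [] ([] ++ [cur ++ sb x, db x]) out (by simp),
    step_rat z [] ([] ++ [cur ++ sb x, db x] ++ [[] ++ sb y, db y]) out (by simp),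
    step_rat6 t [] ([] ++ [cur ++ sb x, db x] ++ [[] ++ sb y, db y] ++ [[] ++ sb z, db z]) out
      (by simp)]
  simp [grp]

/-- the group of a crease -/
def grpC (c : Crease) : List Blk := grp [c.val] c.p.1 c.p.2 c.q.1 c.q.2

theorem step_crease (c : Crease) (out : List (List Blk)) :
    ((encCrease c).map tok).foldl step ([], [], out) = ([], [], out ++ [grpC c]) := by
  unfold encCrease encPoint
  rw [List.map_cons, List.foldl_cons, step_some]
  have := step_four [c.val] c.p.1 c.p.2 c.q.1 c.q.2 out
  simp only [List.nil_append, List.append_assoc] at this ⊢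
  exact this

theorem step_creases (L : List Crease) : ∀ out : List (List Blk),
    ((L.flatMap encCrease).map tok).foldl step ([], [], out) = ([], [], out ++ L.map grpC) := by
  induction L with
  | nil => intro out; simp
  | cons c L ih =>
    intro out
    rw [List.flatMap_cons, List.map_append, List.foldl_append, step_crease, ih]
    simp

/-- all groups of a map -/
def grpsM (m : PaperMap) : List (List Blk) :=
  grp [] m.x0 m.x1 m.y0 m.y1 :: m.creases.map grpC

theorem groups_enc (m : PaperMap) : groups ((encMap m).map tok) = grpsM m := by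
  unfold groups encMap
  rw [List.map_append, List.foldl_append, step_four, step_creases]
  rfl

/-! ### common denominator -/

/-- the denominators of a group -/
def dens4 (g : List Blk) : List BN :=
  [⟨bv (g.getD 1 [])⟩, ⟨bv (g.getD 3 [])⟩, ⟨bv (g.getD 5 [])⟩, ⟨bv (g.getD 7 [])⟩]

/-- all denominators -/
def dens (gs : List (List Blk)) : List BN := gs.flatMap fun g => dens4 g

/-- product of all denominators except of number `j` -/
def cof (ds : List BN) (j : ℕ) : BN := ⟨((ds.take j ++ ds.drop (j + 1)).map BN.val).prod⟩

/-- the numerator -/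
def numer (s : Blk) (c : BN) : BZ :=
  bif s.headD false then (⟨0⟩, ⟨(BN.mk (bv s.tail)).val * c.val⟩)
  else (⟨(BN.mk (bv s.tail)).val * c.val⟩, ⟨0⟩)

@[fun_prop]
theorem PolyF.dens4 {f : α → List Blk} (hf : PolyF f) : PolyF (fun a => dens4 (f a)) := by
  unfold PA.dens4
  fun_prop

@[fun_prop]
theorem PolyF.dens {f : α → List (List Blk)} (hf : PolyF f) : PolyF (fun a => dens (f a)) := by
  unfold PA.dens
  exact PolyF.flatMap hf (f := fun _ g => PA.dens4 g) (by fun_prop)

@[fun_prop]
theorem PolyF.cof {f : α → List BN} {j : α → ℕ} (hf : PolyF f) (hj : PolyF j) :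
    PolyF (fun a => cof (f a) (j a)) := by
  unfold PA.cof
  fun_prop

@[fun_prop]
theorem PolyF.numer {f : α → Blk} {j : α → BN} (hf : PolyF f) (hj : PolyF j) :
    PolyF (fun a => numer (f a) (j a)) := by
  unfold PA.numer
  fun_prop

/-- the numbers of a group; `k` is the number of the group -/
def pts (ds : List BN) (k : ℕ) (s : Blk) (g : List Blk) : (BZ × BZ) × (BZ × BZ) :=
  ((numer s (cof ds (4 * k)), numer (g.getD 2 []) (cof ds (4 * k + 1))),
    (numer (g.getD 4 []) (cof ds (4 * k + 2)), numer (g.getD 6 []) (cof ds (4 * k + 3))))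

@[fun_prop]
theorem PolyF.pts {f : α → List BN} {k : α → ℕ} {s : α → Blk} {g : α → List Blk} (hf : PolyF f)
    (hk : PolyF k) (hs : PolyF s) (hg : PolyF g) : PolyF (fun a => pts (f a) (k a) (s a) (g a)) := by
  unfold PA.pts
  fun_prop

/-- the whole parser -/
def outp (w : List (Fin 3)) : Rec BZ × List (Cr BZ) :=
  (pts (dens (groups w)) 0 (((groups w).headD []).getD 0 []) ((groups w).headD []),
    (List.range (groups w).tail.length).map fun k =>
      (pts (dens (groups w)) (k + 1) (((groups w).tail.getD k []).getD 0 []).tail
        ((groups w).tail.getD k []), (((groups w).tail.getD k []).getD 0 []).headD false))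

theorem PolyF.outp : PolyF outp := by
  unfold PA.outp
  refine PolyF.pair (by fun_prop) ?_
  refine PolyF.map (l := fun w : List (Fin 3) => List.range (PA.groups w).tail.length)
    (f := fun w k =>
      (PA.pts (PA.dens (PA.groups w)) (k + 1) (((PA.groups w).tail.getD k []).getD 0 []).tail
        ((PA.groups w).tail.getD k []), (((PA.groups w).tail.getD k []).getD 0 []).headD false))
    (by fun_prop) (by fun_prop)

/-! ### correctness -/

theorem getD_flatMap4 {γ δ : Type} (f : γ → List δ) (hf : ∀ x, (f x).length = 4) (d : δ) (d' : γ) :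
    ∀ (L : List γ) (k i : ℕ), k < L.length → i < 4 →
      (L.flatMap f).getD (4 * k + i) d = (f (L.getD k d')).getD i d := by
  intro L
  induction L with
  | nil => intro k i hk; simp at hk
  | cons x L ih =>
    intro k i hk hi
    rw [List.flatMap_cons]
    cases k with
    | zero =>
      rw [List.getD_append _ _ _ _ (by rw [hf]; omega)]
      simp
    | succ k =>
      rw [List.getD_append_right _ _ _ _ (by rw [hf]; omega), hf,
        show 4 * (k + 1) + i - 4 = 4 * k + i by omega, ih k i (by simpa using hk) hi]
      simp

theorem cof_mul (ds : List BN) (j : ℕ) (hj : j < ds.length) :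
    (cof ds j).val * (ds.getD j ⟨1⟩).val = (ds.map BN.val).prod := by
  unfold cof
  conv_rhs => rw [← List.take_append_drop j ds, List.drop_eq_getElem_cons hj]
  rw [List.getD_eq_getElem _ _ hj]
  simp only [List.map_append, List.map_cons, List.prod_append, List.prod_cons]
  ring

theorem bzval_numer (x : ℚ) (c : BN) (D : ℕ) (hD : c.val * x.den = D) (hD0 : 0 < D) :
    bzval D (numer (sb x) c) = x := by
  have hden : (x.den : ℝ) ≠ 0 := by exact_mod_cast x.den_ne_zero
  have hD' : (D : ℝ) ≠ 0 := by positivity
  have hx : (x : ℝ) = (x.num : ℝ) / x.den := by exact_mod_cast (Rat.num_div_den x).symm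
  have hDc : (c.val : ℝ) * x.den = D := by exact_mod_cast hD
  have habs : ((x.num.natAbs : ℕ) : ℝ) = |(x.num : ℝ)| := by
    rw [Nat.cast_natAbs, Int.cast_abs]
  unfold numer sb bzval
  simp only [List.headD_cons, List.tail_cons, bv_bits]
  by_cases hneg : x < 0
  · have hn : (x.num : ℝ) < 0 := by exact_mod_cast Rat.num_neg.2 hneg
    rw [decide_eq_true hneg]
    simp only [cond_true]
    push_cast
    rw [habs, abs_of_neg hn, hx, div_eq_div_iff hD' hden, ← hDc]
    ring
  · have hn : (0 : ℝ) ≤ x.num := by exact_mod_cast Rat.num_nonneg.2 (not_lt.1 hneg)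
    rw [decide_eq_false hneg]
    simp only [cond_false]
    push_cast
    rw [habs, abs_of_nonneg hn, hx, div_eq_div_iff hD' hden, ← hDc]
    ring

theorem dens4_grp (cur : Blk) (x y z t : ℚ) :
    dens4 (grp cur x y z t) = [⟨x.den⟩, ⟨y.den⟩, ⟨z.den⟩, ⟨t.den⟩] := by
  simp [dens4, grp, db, bv_bits]

/-- every group of a map is a group of four rationals -/
theorem pts_grp (gs : List (List Blk)) (k : ℕ) (hk : k < gs.length) (cur : Blk) (x y z t : ℚ)
    (hg : gs.getD k [] = grp cur x y z t) (hpos : 0 < ((dens gs).map BN.val).prod) :
    ((bzval ((dens gs).map BN.val).prod (pts (dens gs) k (sb x) (grp cur x y z t)).1.1,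
      bzval ((dens gs).map BN.val).prod (pts (dens gs) k (sb x) (grp cur x y z t)).1.2),
     (bzval ((dens gs).map BN.val).prod (pts (dens gs) k (sb x) (grp cur x y z t)).2.1,
      bzval ((dens gs).map BN.val).prod (pts (dens gs) k (sb x) (grp cur x y z t)).2.2)) =
    (((x : ℝ), (y : ℝ)), ((z : ℝ), (t : ℝ))) := by
  have hlen : (dens gs).length = 4 * gs.length := by
    unfold dens
    rw [List.length_flatMap]
    simp [dens4, mul_comm]
  have hden : ∀ i, i < 4 → (dens gs).getD (4 * k + i) ⟨1⟩ =
      ([⟨x.den⟩, ⟨y.den⟩, ⟨z.den⟩, ⟨t.den⟩] : List BN).getD i ⟨1⟩ := by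
    intro i hi
    unfold dens
    rw [getD_flatMap4 (fun g => dens4 g) (fun g => rfl) ⟨1⟩ [] gs k i hk hi, hg, dens4_grp]
  have hc : ∀ i, i < 4 → (cof (dens gs) (4 * k + i)).val *
      (([⟨x.den⟩, ⟨y.den⟩, ⟨z.den⟩, ⟨t.den⟩] : List BN).getD i ⟨1⟩).val =
      ((dens gs).map BN.val).prod := by
    intro i hi
    rw [← hden i hi]
    exact cof_mul _ _ (by rw [hlen]; omega)
  unfold pts
  simp only
  rw [← Nat.add_zero (4 * k), Nat.add_assoc (4 * k) 0 1, Nat.add_assoc (4 * k) 0 2,
    Nat.add_assoc (4 * k) 0 3]
  simp only [Nat.zero_add]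
  rw [bzval_numer x _ _ (hc 0 (by norm_num)) hpos]
  have e2 : (grp cur x y z t).getD 2 [] = sb y := rfl
  have e4 : (grp cur x y z t).getD 4 [] = sb z := rfl
  have e6 : (grp cur x y z t).getD 6 [] = sb t := rfl
  rw [e2, e4, e6, bzval_numer y _ _ (hc 1 (by norm_num)) hpos,
    bzval_numer z _ _ (hc 2 (by norm_num)) hpos, bzval_numer t _ _ (hc 3 (by norm_num)) hpos]

theorem dens_pos (m : PaperMap) : 0 < ((dens (grpsM m)).map BN.val).prod := by
  refine List.prod_pos ?_
  intro a ha
  rw [List.mem_map] at ha
  obtain ⟨b, hb, rfl⟩ := ha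
  unfold dens at hb
  rw [List.mem_flatMap] at hb
  obtain ⟨g, hg, hb⟩ := hb
  obtain ⟨cur, x, y, z, t, rfl⟩ : ∃ cur x y z t, g = grp cur x y z t := by
    unfold grpsM at hg
    rw [List.mem_cons, List.mem_map] at hg
    rcases hg with rfl | ⟨c, -, rfl⟩
    · exact ⟨_, _, _, _, _, rfl⟩
    · exact ⟨_, _, _, _, _, rfl⟩
  rw [dens4_grp] at hb
  simp only [List.mem_cons, List.not_mem_nil, or_false] at hb
  rcases hb with rfl | rfl | rfl | rfl
  · exact x.den_pos
  · exact y.den_pos
  · exact z.den_pos
  · exact t.den_pos

end PA

open PA in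
theorem stmt_PARSE : Stmt_PARSE := by
  refine ⟨outp, PolyF.outp, fun m => ⟨((dens (grpsM m)).map BN.val).prod, dens_pos m, ?_⟩⟩
  have htok : ∀ F : Option Bool → Fin 3, (∀ o, F o = tok o) →
      (encMap m).map F = (encMap m).map tok := fun F hF => List.map_congr_left fun o _ => hF o
  rw [htok _ (by intro o; rcases o with _ | (_ | _) <;> rfl)]
  unfold outp
  rw [groups_enc]
  have hD := dens_pos m
  constructor
  · exact pts_grp (grpsM m) 0 (by simp [grpsM]) [] m.x0 m.x1 m.y0 m.y1 rfl hD
  · simp only
    have hlen : (grpsM m).tail.length = m.creases.length := by simp [grpsM]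
    rw [hlen]
    unfold cresR
    apply List.ext_getElem
    · simp
    · intro k h1 h2
      simp only [List.getElem_map, List.getElem_range]
      have hk : k < m.creases.length := by simpa using h2
      have e1 : (grpsM m).tail.getD k [] = grpC m.creases[k] := by
        simp only [grpsM, List.tail_cons]
        rw [List.getD_eq_getElem _ _ (by simpa using hk), List.getElem_map]
      have e2 : (grpsM m).getD (k + 1) [] = grpC m.creases[k] := by
        rw [← e1]; rfl
      rw [e1]
      have h3 := pts_grp (grpsM m) (k + 1) (by simp [grpsM]; omega) _ _ _ _ _ e2 hD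
      exact Prod.ext h3 rfl

end Pool.Agent.Work.MP_bd4052_lc
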